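import Pool.Agent.H987.Z.StB
import Pool.Graph.R_pool_sql_team_seeded_1acbe0a2.Y662.TR.Prob

/-! B2: the law of large numbers in the upper half-plane. -/

set_option autoImplicit false

open scoped BigOperators
open MeasureTheory Filter

namespace Pool.Agent.H271.Z987

open Pool.Agent.Y662.TR (hu hu_nonneg hu_im hu_sq hu_mul hu_comm tri_far wsum_fin bdd_int
  bdd_int_real int_eval int_eval_real meas_ev)

/-- convexity of `w ↦ |w - g|² / Im w` -/
theorem hu_avg {I : Type} (F : Finset I) (x : I → ℂ) (g : ℂ) (hF : F.Nonempty)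
    (hx : ∀ i, 0 < (x i).im) (hg : 0 < g.im) :
    hu ((∑ i ∈ F, x i) / (F.card : ℂ)) g ≤ (∑ i ∈ F, hu (x i) g) / F.card := by
  have hN : (0 : ℝ) < F.card := by exact_mod_cast hF.card_pos
  have hNc : (F.card : ℂ) ≠ 0 := by exact_mod_cast hN.ne'
  have him : ((∑ i ∈ F, x i) / (F.card : ℂ)).im = (∑ i ∈ F, (x i).im) / F.card := by
    rw [Complex.div_natCast_im, Complex.im_sum]
  have hS : 0 < ∑ i ∈ F, (x i).im := Finset.sum_pos (fun i _ => hx i) hF
  have hn : ‖(∑ i ∈ F, x i) / (F.card : ℂ) - g‖ = ‖∑ i ∈ F, (x i - g)‖ / F.card := by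
    have : (∑ i ∈ F, x i) / (F.card : ℂ) - g = (∑ i ∈ F, (x i - g)) / (F.card : ℂ) := by
      rw [Finset.sum_sub_distrib, Finset.sum_const, nsmul_eq_mul]
      field_simp
    rw [this, norm_div, Complex.norm_natCast]
  have hcs : ‖∑ i ∈ F, (x i - g)‖ ^ 2 ≤
      (∑ i ∈ F, ‖x i - g‖ ^ 2 / (x i).im) * ∑ i ∈ F, (x i).im := by
    have h1 : ‖∑ i ∈ F, (x i - g)‖ ≤ ∑ i ∈ F, ‖x i - g‖ := norm_sum_le _ _
    have h2 : (∑ i ∈ F, ‖x i - g‖) ^ 2 / ∑ i ∈ F, (x i).im ≤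
        ∑ i ∈ F, ‖x i - g‖ ^ 2 / (x i).im :=
      Finset.sq_sum_div_le_sum_sq_div F (fun i => ‖x i - g‖) (fun i _ => hx i)
    rw [div_le_iff₀ hS] at h2
    exact (pow_le_pow_left₀ (norm_nonneg _) h1 2).trans h2
  have hsum : ∑ i ∈ F, hu (x i) g = (∑ i ∈ F, ‖x i - g‖ ^ 2 / (x i).im) / g.im := by
    rw [Finset.sum_div]
    refine Finset.sum_congr rfl fun i _ => ?_
    unfold hu
    rw [div_div]
  rw [hsum]
  unfold hu
  rw [him, hn, div_pow, div_div, div_div, div_le_div_iff₀ (by positivity) (by positivity)]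
  calc ‖∑ i ∈ F, (x i - g)‖ ^ 2 * (g.im * F.card)
      ≤ ((∑ i ∈ F, ‖x i - g‖ ^ 2 / (x i).im) * ∑ i ∈ F, (x i).im) * (g.im * F.card) := by gcongr
    _ = _ := by field_simp

/-- the average over `M` with at least `M - 1` terms, compared with `g` -/
theorem hu_sum {I : Type} (F : Finset I) (x : I → ℂ) (g : ℂ) {ρ : ℝ} {M : ℕ}
    (hρ : 1 ≤ ρ) (hx : ∀ i, 0 < (x i).im) (hg : 0 < g.im) (hgρ : ‖g‖ ≤ ρ * g.im) (hM : 2 ≤ M)
    (h1 : F.card ≤ M) (h2 : M ≤ F.card + 1) :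
    0 < ((∑ i ∈ F, x i) / (M : ℂ)).im ∧
      hu ((∑ i ∈ F, x i) / (M : ℂ)) g ≤
        (4 + 2 * ρ ^ 2) * (1 + (∑ i ∈ F, hu (x i) g) / F.card) := by
  have hNpos : 0 < F.card := by omega
  have hF : F.Nonempty := Finset.card_pos.1 hNpos
  have hN : (0 : ℝ) < F.card := by exact_mod_cast hNpos
  have hMr : (2 : ℝ) ≤ M := by exact_mod_cast hM
  have hM0 : (0 : ℝ) < M := by linarith
  have h1r : (F.card : ℝ) ≤ M := by exact_mod_cast h1
  have h2r : (M : ℝ) ≤ F.card + 1 := by exact_mod_cast h2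
  have hNc : (F.card : ℂ) ≠ 0 := by exact_mod_cast hN.ne'
  have hMc : (M : ℂ) ≠ 0 := by exact_mod_cast hM0.ne'
  obtain ⟨A, hA⟩ : ∃ A, A = (∑ i ∈ F, x i) / (F.card : ℂ) := ⟨_, rfl⟩
  obtain ⟨U, hU⟩ : ∃ U, U = (∑ i ∈ F, hu (x i) g) / F.card := ⟨_, rfl⟩
  obtain ⟨t, ht⟩ : ∃ t : ℝ, t = F.card / M := ⟨_, rfl⟩
  have hAU : hu A g ≤ U := by
    rw [hA, hU]
    exact hu_avg F x g hF hx hg
  have hS0 : 0 < ∑ i ∈ F, (x i).im := Finset.sum_pos (fun i _ => hx i) hF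
  have hAim : 0 < A.im := by
    rw [hA, Complex.div_natCast_im, Complex.im_sum]
    positivity
  have hU0 : 0 ≤ U := (hu_nonneg hAim hg).trans hAU
  have ht1 : t ≤ 1 := by
    rw [ht, div_le_one hM0]
    exact h1r
  have ht2 : 1 - t ≤ 1 / M := by
    rw [ht, ← sub_nonneg]
    have : 1 / (M : ℝ) - (1 - F.card / M) = (1 + F.card - M) / M := by
      field_simp
      ring
    rw [this]
    exact div_nonneg (by linarith) hM0.le
  have ht3 : 1 / 2 ≤ t := by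
    have : 1 / (M : ℝ) ≤ 1 / 2 := one_div_le_one_div_of_le (by norm_num) hMr
    linarith
  have hS : (∑ i ∈ F, x i) / (M : ℂ) = (t : ℂ) * A := by
    rw [hA, ht]
    push_cast
    field_simp
  have hSim : ((t : ℂ) * A).im = t * A.im := Complex.im_ofReal_mul _ _
  have ht0 : 0 < t := by linarith
  rw [hS, ← hU]
  have hmain : 0 < ((t : ℂ) * A).im := by
    rw [hSim]
    positivity
  refine ⟨hmain, ?_⟩
  have e1 : ‖A - g‖ ^ 2 ≤ U * (A.im * g.im) := by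
    rw [hu_mul hAim hg]
    exact mul_le_mul_of_nonneg_right hAU (by positivity)
  have e2 : g.im ≤ (U + 2) * A.im := by
    have h3 := hu_im hg hAim
    rw [hu_comm g A] at h3
    nlinarith
  have e3 : ‖(t : ℂ) * A - g‖ ≤ ‖A - g‖ + (1 - t) * ‖g‖ := by
    have h3 : (t : ℂ) * A - g = (t : ℂ) * (A - g) - ((1 - t : ℝ) : ℂ) * g := by
      push_cast
      ring
    rw [h3]
    refine (norm_sub_le _ _).trans ?_
    rw [norm_mul, norm_mul, Complex.norm_real, Complex.norm_real, Real.norm_eq_abs,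
      Real.norm_eq_abs, abs_of_pos ht0, abs_of_nonneg (by linarith : (0 : ℝ) ≤ 1 - t)]
    have := mul_le_mul_of_nonneg_right ht1 (norm_nonneg (A - g))
    linarith
  have e4 : (1 - t) * ‖g‖ ≤ ρ * g.im / 2 := by
    have h3 : 1 - t ≤ 1 / 2 := by linarith
    have h4 : (1 - t) * ‖g‖ ≤ 1 / 2 * (ρ * g.im) :=
      mul_le_mul h3 hgρ (norm_nonneg _) (by norm_num)
    linarith
  have e5 : ‖(t : ℂ) * A - g‖ ^ 2 ≤ 2 * ‖A - g‖ ^ 2 + 2 * (ρ * g.im / 2) ^ 2 := by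
    have h3 : ‖(t : ℂ) * A - g‖ ≤ ‖A - g‖ + ρ * g.im / 2 := by linarith
    have h4 := pow_le_pow_left₀ (norm_nonneg _) h3 2
    nlinarith [sq_nonneg (‖A - g‖ - ρ * g.im / 2)]
  have e6 : (ρ * g.im / 2) ^ 2 * 2 ≤ ρ ^ 2 * (U + 2) / 2 * (A.im * g.im) := by
    have h3 : ρ ^ 2 / 2 * g.im * g.im ≤ ρ ^ 2 / 2 * g.im * ((U + 2) * A.im) :=
      mul_le_mul_of_nonneg_left e2 (by positivity)
    nlinarith
  have e7 : ‖(t : ℂ) * A - g‖ ^ 2 ≤ (2 * U + ρ ^ 2 * (U + 2) / 2) * (A.im * g.im) := by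
    nlinarith
  unfold hu
  rw [hSim, div_le_iff₀ (by positivity)]
  have e8 : (2 * U + ρ ^ 2 * (U + 2) / 2) ≤ (4 + 2 * ρ ^ 2) * (1 + U) * t := by
    have h3 : (2 * U + ρ ^ 2 * (U + 2) / 2) ≤ (4 + 2 * ρ ^ 2) * (1 + U) * (1 / 2) := by
      nlinarith [mul_nonneg (sq_nonneg ρ) hU0]
    exact h3.trans (mul_le_mul_of_nonneg_left ht3 (by positivity))
  calc ‖(t : ℂ) * A - g‖ ^ 2 ≤ (2 * U + ρ ^ 2 * (U + 2) / 2) * (A.im * g.im) := e7
    _ ≤ (4 + 2 * ρ ^ 2) * (1 + U) * t * (A.im * g.im) :=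
      mul_le_mul_of_nonneg_right e8 (by positivity)
    _ = _ := by ring

/-- the pointwise inequality -/
theorem point {I : Type} (F : Finset I) (x : I → ℂ) (g m : ℂ) {ρ μ : ℝ} {M : ℕ}
    (hρ : 1 ≤ ρ) (hx : ∀ i, 0 < (x i).im) (hg : 0 < g.im) (hgρ : ‖g‖ ≤ ρ * g.im) (hM : 2 ≤ M)
    (h1 : F.card ≤ M) (h2 : M ≤ F.card + 1) (hm : ‖m - g‖ ≤ g.im / 2)
    (hμ1 : μ ≤ 1 / 10) :
    hu ((∑ i ∈ F, x i) / (M : ℂ)) m ^ 2 ≤
      36 * (15 + 5 * ρ ^ 2) ^ 2 * (((∑ i ∈ F, hu (x i) g) / F.card - μ) ^ 2 +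
        ‖(∑ i ∈ F, x i) / (M : ℂ) - m‖ ^ 2 / m.im ^ 2) := by
  obtain ⟨hS0, hS1⟩ := hu_sum F x g hρ hx hg hgρ hM h1 h2
  obtain ⟨S, hS⟩ : ∃ S, S = (∑ i ∈ F, x i) / (M : ℂ) := ⟨_, rfl⟩
  obtain ⟨U, hU⟩ : ∃ U, U = (∑ i ∈ F, hu (x i) g) / F.card := ⟨_, rfl⟩
  rw [← hS] at hS0 hS1 ⊢
  rw [← hU] at hS1 ⊢
  have hmi : |m.im - g.im| ≤ g.im / 2 := by
    have h3 := Complex.abs_im_le_norm (m - g)
    rw [Complex.sub_im] at h3
    exact h3.trans hm
  have hmim : g.im / 2 ≤ m.im := by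
    have := (abs_le.1 hmi).1
    linarith
  have hm0 : 0 < m.im := by linarith
  have hU0 : 0 ≤ U := by
    rw [hU]
    exact div_nonneg (Finset.sum_nonneg fun i _ => hu_nonneg (hx i) hg) (Nat.cast_nonneg _)
  have hgm : hu g m ≤ 1 / 2 := by
    unfold hu
    rw [norm_sub_rev, div_le_iff₀ (by positivity)]
    have h3 := pow_le_pow_left₀ (norm_nonneg _) hm 2
    nlinarith
  have hgm0 := hu_nonneg hg hm0
  have hSg0 := hu_nonneg hS0 hg
  obtain ⟨K, hK⟩ : ∃ K, K = 15 + 5 * ρ ^ 2 := ⟨_, rfl⟩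
  have hK1 : 15 ≤ K := by
    rw [hK]
    nlinarith [sq_nonneg ρ]
  have hH : hu S m ≤ K * (1 + U) := by
    have h3 := tri_far hS0 hg hm0
    have h4 : (2 + hu g m) * (hu S g + 2) ≤ (5 / 2) * (hu S g + 2) :=
      mul_le_mul_of_nonneg_right (by linarith) (by linarith)
    have h5 : (5 / 2) * (hu S g + 2) ≤ K * (1 + U) := by
      rw [hK]
      nlinarith [mul_nonneg (sq_nonneg ρ) hU0]
    linarith
  have hH0 : 0 ≤ hu S m := hu_nonneg hS0 hm0
  rw [← hK]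
  have hD0 : 0 ≤ ‖S - m‖ ^ 2 / m.im ^ 2 := by positivity
  have hV0 : 0 ≤ (U - μ) ^ 2 := sq_nonneg _
  by_cases hU2 : 2 < U
  · have h3 : 1 + U ≤ 3 / 2 * U := by linarith
    have h4 : 19 / 20 * U ≤ U - μ := by linarith
    have h5 : hu S m ≤ K * (3 / 2 * U) := hH.trans (mul_le_mul_of_nonneg_left h3 (by linarith))
    have h6 : hu S m ^ 2 ≤ (K * (3 / 2 * U)) ^ 2 := pow_le_pow_left₀ hH0 h5 2
    have h7 : (19 / 20 * U) ^ 2 ≤ (U - μ) ^ 2 := pow_le_pow_left₀ (by positivity) h4 2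
    have h8 : 36 * K ^ 2 * (19 / 20 * U) ^ 2 ≤ 36 * K ^ 2 * (U - μ) ^ 2 :=
      mul_le_mul_of_nonneg_left h7 (by positivity)
    have h9 : (K * (3 / 2 * U)) ^ 2 ≤ 36 * K ^ 2 * (19 / 20 * U) ^ 2 := by
      have : 0 ≤ K ^ 2 * U ^ 2 := by positivity
      nlinarith
    have h10 : 0 ≤ 36 * K ^ 2 * (‖S - m‖ ^ 2 / m.im ^ 2) := by positivity
    rw [mul_add]
    linarith
  · rw [not_lt] at hU2
    have hH3 : hu S m ≤ 3 * K := by
      have : K * (1 + U) ≤ K * 3 := mul_le_mul_of_nonneg_left (by linarith) (by linarith)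
      linarith
    have key : hu S m ^ 2 ≤ 36 * K ^ 2 * (‖S - m‖ ^ 2 / m.im ^ 2) := by
      by_cases hc : S.im < m.im / 2
      · have h3 : m.im / 2 ≤ ‖S - m‖ := by
          have h4 := Complex.abs_im_le_norm (S - m)
          rw [Complex.sub_im] at h4
          have h5 := (abs_le.1 h4).1
          linarith
        have h4 : 1 / 4 ≤ ‖S - m‖ ^ 2 / m.im ^ 2 := by
          rw [le_div_iff₀ (by positivity)]
          have := pow_le_pow_left₀ (by positivity) h3 2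
          nlinarith
        have h5 : hu S m ^ 2 ≤ (3 * K) ^ 2 := pow_le_pow_left₀ hH0 hH3 2
        have h6 : 36 * K ^ 2 * (1 / 4) ≤ 36 * K ^ 2 * (‖S - m‖ ^ 2 / m.im ^ 2) :=
          mul_le_mul_of_nonneg_left h4 (by positivity)
        nlinarith
      · rw [not_lt] at hc
        have h3 : hu S m ≤ 2 * (‖S - m‖ ^ 2 / m.im ^ 2) := by
          unfold hu
          rw [div_le_iff₀ (by positivity)]
          have h4 : 2 * (‖S - m‖ ^ 2 / m.im ^ 2) * (S.im * m.im)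
              = ‖S - m‖ ^ 2 * (2 * S.im / m.im) := by
            field_simp
          rw [h4]
          have h5 : 1 ≤ 2 * S.im / m.im := by
            rw [le_div_iff₀ hm0]
            linarith
          nlinarith [sq_nonneg ‖S - m‖]
        have h4 : hu S m ^ 2 ≤ 3 * K * (2 * (‖S - m‖ ^ 2 / m.im ^ 2)) := by
          rw [sq]
          exact mul_le_mul hH3 h3 hH0 (by linarith)
        have h5 : 6 * K * (‖S - m‖ ^ 2 / m.im ^ 2) ≤
            36 * K ^ 2 * (‖S - m‖ ^ 2 / m.im ^ 2) := by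
          refine mul_le_mul_of_nonneg_right ?_ hD0
          nlinarith
        linarith
    have h10 : 0 ≤ 36 * K ^ 2 * (U - μ) ^ 2 := by positivity
    rw [mul_add]
    linarith

theorem two_sq (a b : ℝ) : (a + b) ^ 2 ≤ a ^ 2 * 2 + 2 * b ^ 2 := by
  nlinarith [sq_nonneg (a - b)]

theorem mul_le_aux {a b c : ℝ} (hb : b ≤ 1) (hc : 0 ≤ c) : a + b * c ≤ a + c := by
  have := mul_le_mul_of_nonneg_right hb hc
  linarith

/-- the law of large numbers in the upper half-plane -/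
theorem lln : Pool.Agent.H987.Z.S_lln := by
  intro ρ hρ
  refine ⟨36 * (15 + 5 * ρ ^ 2) ^ 2 * (9 + 16 * ρ ^ 2), by positivity, ?_⟩
  intro Ω I _ P _ X K κ g hX hK hκ hXi hg hgρ hint
  have hXp : ∀ ω, 0 < (X ω).im := fun ω => hκ.trans_le (hXi ω)
  have hXm : Measurable fun ω => ‖X ω - g‖ ^ 2 := ((hX.sub_const g).norm).pow_const 2
  have hhm : Measurable fun ω => hu (X ω) g := by
    unfold hu
    exact hXm.div ((Complex.measurable_im.comp hX).mul_const _)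
  have hXb : ∀ ω, ‖X ω - g‖ ^ 2 ≤ (K + ‖g‖) ^ 2 := by
    intro ω
    refine pow_le_pow_left₀ (norm_nonneg _) ?_ 2
    exact (norm_sub_le _ _).trans (by linarith [hK ω])
  have hh0 : ∀ ω, 0 ≤ hu (X ω) g := fun ω => hu_nonneg (hXp ω) hg
  have hhB : ∀ ω, hu (X ω) g ≤ (K + ‖g‖) ^ 2 / (κ * g.im) := by
    intro ω
    unfold hu
    have h3 : κ * g.im ≤ (X ω).im * g.im := mul_le_mul_of_nonneg_right (hXi ω) hg.le
    exact div_le_div₀ (sq_nonneg _) (hXb ω) (by positivity) h3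
  obtain ⟨B, hB⟩ : ∃ B, B = (K + ‖g‖) ^ 2 / (κ * g.im) := ⟨_, rfl⟩
  rw [← hB] at hhB
  have hB0 : 0 ≤ B := by
    rw [hB]
    positivity
  have hi1 : Integrable (fun ω => hu (X ω) g) P :=
    bdd_int_real P _ hhm B fun ω => by
      rw [abs_of_nonneg (hh0 ω)]
      exact hhB ω
  have hi2 : Integrable (fun ω => hu (X ω) g ^ 2) P :=
    bdd_int_real P _ (hhm.pow_const 2) (B ^ 2) fun ω => by
      rw [abs_of_nonneg (sq_nonneg _)]
      exact pow_le_pow_left₀ (hh0 ω) (hhB ω) 2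
  have hi3 : Integrable (fun ω => ‖X ω - g‖ ^ 2) P :=
    bdd_int_real P _ hXm ((K + ‖g‖) ^ 2) fun ω => by
      rw [abs_of_nonneg (sq_nonneg _)]
      exact hXb ω
  obtain ⟨μ, hμ⟩ : ∃ μ, μ = ∫ ω, hu (X ω) g ∂P := ⟨_, rfl⟩
  have hμ1 : μ ≤ 1 / 10 := by
    have h3 : ∫ ω, hu (X ω) g ∂P ≤ ∫ ω, (5 * hu (X ω) g ^ 2 + 1 / 20) ∂P := by
      refine integral_mono hi1 ((hi2.const_mul 5).add (integrable_const _)) fun ω => ?_
      have := sq_nonneg (hu (X ω) g - 1 / 10)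
      simp only
      nlinarith
    rw [integral_add (hi2.const_mul 5) (integrable_const _), integral_const_mul,
      integral_const] at h3
    simp only [probReal_univ, smul_eq_mul, one_mul] at h3
    rw [hμ]
    linarith
  have hXg : ∫ ω, ‖X ω - g‖ ^ 2 ∂P ≤ 21 / 100 * g.im ^ 2 := by
    have h3 : ∫ ω, ‖X ω - g‖ ^ 2 ∂P ≤ ∫ ω, (hu (X ω) g ^ 2 * g.im ^ 2 +
        hu (X ω) g * (2 * g.im ^ 2)) ∂P := by
      refine integral_mono hi3 ((hi2.mul_const _).add (hi1.mul_const _)) fun ω => ?_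
      have := hu_sq (hXp ω) hg
      simp only
      nlinarith
    rw [integral_add (hi2.mul_const _) (hi1.mul_const _), integral_mul_const,
      integral_mul_const, ← hμ] at h3
    have h4 : (∫ ω, hu (X ω) g ^ 2 ∂P) * g.im ^ 2 ≤ 1 / 100 * g.im ^ 2 :=
      mul_le_mul_of_nonneg_right hint (sq_nonneg _)
    have h5 : μ * (2 * g.im ^ 2) ≤ 1 / 10 * (2 * g.im ^ 2) :=
      mul_le_mul_of_nonneg_right hμ1 (by positivity)
    linarith
  have hiX : Integrable X P := bdd_int P X hX K hK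
  obtain ⟨m, hm⟩ : ∃ m, m = ∫ ω, X ω ∂P := ⟨_, rfl⟩
  have hmg : ‖m - g‖ ≤ g.im / 2 := by
    have h3 : m - g = ∫ ω, (X ω - g) ∂P := by
      rw [integral_sub hiX (integrable_const _), integral_const, ← hm]
      simp
    rw [h3]
    have h4 : Integrable (fun ω => ‖X ω - g‖) P := (hiX.sub (integrable_const g)).norm
    have h5 : ∫ ω, ‖X ω - g‖ ∂P ≤ ∫ ω, (g.im / 4 + ‖X ω - g‖ ^ 2 * (1 / g.im)) ∂P := by
      refine integral_mono h4 ((integrable_const _).add (hi3.mul_const _)) fun ω => ?_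
      simp only
      have h6 : 0 ≤ (‖X ω - g‖ - g.im / 2) ^ 2 * (1 / g.im) := by positivity
      have h7 : (‖X ω - g‖ - g.im / 2) ^ 2 * (1 / g.im)
          = ‖X ω - g‖ ^ 2 * (1 / g.im) - ‖X ω - g‖ + g.im / 4 := by
        field_simp
        ring
      linarith
    rw [integral_add (integrable_const _) (hi3.mul_const _), integral_const,
      integral_mul_const] at h5
    simp only [probReal_univ, smul_eq_mul, one_mul] at h5
    have h6 : (∫ ω, ‖X ω - g‖ ^ 2 ∂P) * (1 / g.im) ≤ 21 / 100 * g.im := by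
      have h7 := mul_le_mul_of_nonneg_right hXg (by positivity : (0 : ℝ) ≤ 1 / g.im)
      have h8 : 21 / 100 * g.im ^ 2 * (1 / g.im) = 21 / 100 * g.im := by
        field_simp
      linarith
    exact (norm_integral_le_integral_norm _).trans (by linarith)
  rw [← hm]
  refine ⟨hmg, ?_⟩
  intro M F hM h1 h2
  have hNpos : 0 < F.card := by omega
  have hN : (0 : ℝ) < F.card := by exact_mod_cast hNpos
  have hMr : (2 : ℝ) ≤ M := by exact_mod_cast hM
  have hM0 : (0 : ℝ) < M := by linarith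
  have h1r : (F.card : ℝ) ≤ M := by exact_mod_cast h1
  have h2r : (M : ℝ) ≤ F.card + 1 := by exact_mod_cast h2
  have hmi : |m.im - g.im| ≤ g.im / 2 := by
    have h3 := Complex.abs_im_le_norm (m - g)
    rw [Complex.sub_im] at h3
    exact h3.trans hmg
  have hmim : g.im / 2 ≤ m.im := by
    have := (abs_le.1 hmi).1
    linarith
  have hm0 : 0 < m.im := by linarith
  obtain ⟨Q, hQ⟩ : ∃ Q, Q = Measure.infinitePi fun _ : I => P := ⟨_, rfl⟩
  have hQp : IsProbabilityMeasure Q := by rw [hQ]; infer_instance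
  rw [← hQ]
  -- measurability of the two sums
  have hUm : Measurable fun w : I → Ω => ((∑ i ∈ F, hu (X (w i)) g) / F.card - μ) ^ 2 :=
    (((Finset.measurable_sum _ fun i _ => hhm.comp (meas_ev i)).div_const _).sub_const _).pow_const 2
  have hSm : Measurable fun w : I → Ω => ‖(∑ i ∈ F, X (w i)) / (M : ℂ) - m‖ ^ 2 :=
    ((((Finset.measurable_sum _ fun i _ => hX.comp (meas_ev i)).div_const _).sub_const
      _).norm).pow_const 2
  have hUsum : ∀ w : I → Ω, (∑ i ∈ F, hu (X (w i)) g) / F.card - μ =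
      ∑ i ∈ F, (1 / (F.card : ℝ)) * (hu (X (w i)) g - μ) := by
    intro w
    rw [← Finset.mul_sum, Finset.sum_sub_distrib, Finset.sum_const, nsmul_eq_mul]
    field_simp
  have hcardC : (1 : ℝ) / F.card ≤ 2 / M := by
    rw [div_le_div_iff₀ hN hM0]
    linarith
  -- the first variance
  have hV1 : ∫ w : I → Ω, ((∑ i ∈ F, hu (X (w i)) g) / F.card - μ) ^ 2 ∂Q ≤ 1 / 50 / M := by
    have h3 := wsum_fin P (fun ω => ((hu (X ω) g - μ : ℝ) : ℂ))
      (Complex.measurable_ofReal.comp (hhm.sub_const μ)) (B + |μ|) (fun ω => by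
        rw [Complex.norm_real, Real.norm_eq_abs]
        refine (abs_sub _ _).trans ?_
        rw [abs_of_nonneg (hh0 ω)]
        linarith [hhB ω]) F (fun _ => ((1 / (F.card : ℝ) : ℝ) : ℂ))
    have h4 : ∫ ω, ((hu (X ω) g - μ : ℝ) : ℂ) ∂P = 0 := by
      rw [integral_complex_ofReal, integral_sub hi1 (integrable_const _), integral_const, ← hμ]
      simp
    have h5 : ∀ w : I → Ω, ‖∑ y ∈ F, ((1 / (F.card : ℝ) : ℝ) : ℂ) *
        ((hu (X (w y)) g - μ : ℝ) : ℂ)‖ ^ 2 =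
        ((∑ i ∈ F, hu (X (w i)) g) / F.card - μ) ^ 2 := by
      intro w
      rw [hUsum w]
      have : ∑ y ∈ F, ((1 / (F.card : ℝ) : ℝ) : ℂ) * ((hu (X (w y)) g - μ : ℝ) : ℂ) =
          ((∑ y ∈ F, (1 / (F.card : ℝ)) * (hu (X (w y)) g - μ) : ℝ) : ℂ) := by
        push_cast
        rfl
      rw [this, Complex.norm_real, Real.norm_eq_abs, sq_abs]
    have h6 : ∫ ω, ‖((hu (X ω) g - μ : ℝ) : ℂ)‖ ^ 2 ∂P ≤ 1 / 100 := by
      have h7 : ∀ ω, ‖((hu (X ω) g - μ : ℝ) : ℂ)‖ ^ 2 =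
          hu (X ω) g ^ 2 - hu (X ω) g * (2 * μ) + μ ^ 2 := by
        intro ω
        rw [Complex.norm_real, Real.norm_eq_abs, sq_abs]
        ring
      simp only [h7]
      have e1 : Integrable (fun ω => hu (X ω) g ^ 2 - hu (X ω) g * (2 * μ)) P :=
        hi2.sub (hi1.mul_const _)
      rw [integral_add e1 (integrable_const _),
        integral_sub hi2 (hi1.mul_const _), integral_mul_const, integral_const, ← hμ]
      simp only [probReal_univ, smul_eq_mul, one_mul]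
      nlinarith [sq_nonneg μ]
    have h8 : ∑ y ∈ F, ‖((1 / (F.card : ℝ) : ℝ) : ℂ)‖ ^ 2 = 1 / F.card := by
      rw [Finset.sum_const, nsmul_eq_mul, Complex.norm_real, Real.norm_eq_abs, sq_abs]
      field_simp
    rw [← hQ, h4, h8] at h3
    simp only [h5, norm_zero, ne_eq, OfNat.ofNat_ne_zero, not_false_eq_true, zero_pow,
      zero_mul, zero_add] at h3
    refine h3.trans ?_
    calc (∫ ω, ‖((hu (X ω) g - μ : ℝ) : ℂ)‖ ^ 2 ∂P) * (1 / F.card) ≤ 1 / 100 * (2 / M) :=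
          mul_le_mul h6 hcardC (by positivity) (by norm_num)
      _ = 1 / 50 / M := by ring
  -- the second variance
  have hV2 : ∫ w : I → Ω, ‖(∑ i ∈ F, X (w i)) / (M : ℂ) - m‖ ^ 2 ∂Q ≤
      (2 + 4 * ρ ^ 2) * g.im ^ 2 / M := by
    have h3 := wsum_fin P (fun ω => X ω - m) (hX.sub_const m) (K + ‖m‖) (fun ω =>
      (norm_sub_le _ _).trans (by linarith [hK ω])) F (fun _ => ((1 / (M : ℝ) : ℝ) : ℂ))
    have h4 : ∫ ω, (X ω - m) ∂P = 0 := by
      rw [integral_sub hiX (integrable_const _), integral_const, ← hm]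
      simp
    have h6 : ∫ ω, ‖X ω - m‖ ^ 2 ∂P ≤ g.im ^ 2 := by
      have h7 : ∫ ω, ‖X ω - m‖ ^ 2 ∂P ≤ ∫ ω, (‖X ω - g‖ ^ 2 * 2 + g.im ^ 2 / 2) ∂P := by
        refine integral_mono_of_nonneg (Eventually.of_forall fun ω => sq_nonneg _)
          ((hi3.mul_const _).add (integrable_const _)) (Eventually.of_forall fun ω => ?_)
        simp only
        have h8 : ‖X ω - m‖ ≤ ‖X ω - g‖ + ‖m - g‖ := by
          have : X ω - m = (X ω - g) - (m - g) := by ring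
          rw [this]
          exact norm_sub_le _ _
        have h9 : ‖X ω - m‖ ≤ ‖X ω - g‖ + g.im / 2 := by linarith
        have h10 := pow_le_pow_left₀ (norm_nonneg _) h9 2
        nlinarith [sq_nonneg (‖X ω - g‖ - g.im / 2)]
      rw [integral_add (hi3.mul_const _) (integrable_const _), integral_mul_const,
        integral_const] at h7
      simp only [probReal_univ, smul_eq_mul, one_mul] at h7
      linarith [sq_nonneg g.im]
    have h8 : ∑ y ∈ F, ‖((1 / (M : ℝ) : ℝ) : ℂ)‖ ^ 2 ≤ 1 / M := by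
      rw [Finset.sum_const, nsmul_eq_mul, Complex.norm_real, Real.norm_eq_abs, sq_abs]
      calc (F.card : ℝ) * (1 / (M : ℝ)) ^ 2 ≤ (M : ℝ) * (1 / (M : ℝ)) ^ 2 := by gcongr
        _ = 1 / (M : ℝ) := by field_simp
    rw [← hQ, h4] at h3
    simp only [norm_zero, ne_eq, OfNat.ofNat_ne_zero, not_false_eq_true, zero_pow,
      zero_mul, zero_add] at h3
    have h9 : ∫ w : I → Ω, ‖∑ y ∈ F, ((1 / (M : ℝ) : ℝ) : ℂ) * (X (w y) - m)‖ ^ 2 ∂Q ≤
        g.im ^ 2 / M := by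
      refine h3.trans ?_
      calc (∫ ω, ‖X ω - m‖ ^ 2 ∂P) * ∑ y ∈ F, ‖((1 / (M : ℝ) : ℝ) : ℂ)‖ ^ 2 ≤
            g.im ^ 2 * (1 / M) :=
            mul_le_mul h6 h8 (Finset.sum_nonneg fun _ _ => sq_nonneg _) (sq_nonneg _)
        _ = g.im ^ 2 / M := by ring
    have hmn : ‖m‖ ≤ 2 * ρ * g.im := by
      have : ‖m‖ ≤ ‖m - g‖ + ‖g‖ := by
        have h10 := norm_add_le (m - g) g
        rwa [sub_add_cancel] at h10
      nlinarith
    have hTm : Measurable fun w : I → Ω =>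
        ‖∑ y ∈ F, ((1 / (M : ℝ) : ℝ) : ℂ) * (X (w y) - m)‖ ^ 2 :=
      ((Finset.measurable_sum _ fun i _ =>
        ((hX.sub_const m).comp (meas_ev i)).const_mul _).norm).pow_const 2
    have hTi : Integrable (fun w : I → Ω =>
        ‖∑ y ∈ F, ((1 / (M : ℝ) : ℝ) : ℂ) * (X (w y) - m)‖ ^ 2) Q := by
      refine bdd_int_real Q _ hTm ((∑ _y ∈ F, ‖((1 / (M : ℝ) : ℝ) : ℂ)‖ * (K + ‖m‖)) ^ 2)
        fun w => ?_
      rw [abs_of_nonneg (sq_nonneg _)]
      refine pow_le_pow_left₀ (norm_nonneg _) ?_ 2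
      refine (norm_sum_le _ _).trans (Finset.sum_le_sum fun y _ => ?_)
      rw [norm_mul]
      refine mul_le_mul_of_nonneg_left ?_ (norm_nonneg _)
      exact (norm_sub_le _ _).trans (by linarith [hK (w y)])
    have h10 : ∫ w : I → Ω, ‖(∑ i ∈ F, X (w i)) / (M : ℂ) - m‖ ^ 2 ∂Q ≤
        ∫ w : I → Ω, (‖∑ y ∈ F, ((1 / (M : ℝ) : ℝ) : ℂ) * (X (w y) - m)‖ ^ 2 * 2 +
          2 * (‖m‖ / M) ^ 2) ∂Q := by
      refine integral_mono_of_nonneg (Eventually.of_forall fun ω => sq_nonneg _)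
        ((hTi.mul_const _).add (integrable_const _)) (Eventually.of_forall fun w => ?_)
      simp only
      have h11 : (∑ i ∈ F, X (w i)) / (M : ℂ) - m =
          ∑ y ∈ F, ((1 / (M : ℝ) : ℝ) : ℂ) * (X (w y) - m) -
            (((M : ℝ) - F.card : ℝ) : ℂ) * (m / M) := by
        have hMc : (M : ℂ) ≠ 0 := by exact_mod_cast hM0.ne'
        rw [← Finset.mul_sum, Finset.sum_sub_distrib, Finset.sum_const, nsmul_eq_mul]
        push_cast
        field_simp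
        ring
      have h12 : ‖(∑ i ∈ F, X (w i)) / (M : ℂ) - m‖ ≤
          ‖∑ y ∈ F, ((1 / (M : ℝ) : ℝ) : ℂ) * (X (w y) - m)‖ + ‖m‖ / M := by
        rw [h11]
        refine (norm_sub_le _ _).trans ?_
        rw [norm_mul, Complex.norm_real, Real.norm_eq_abs, norm_div, Complex.norm_natCast]
        have h13 : |(M : ℝ) - F.card| ≤ 1 := by
          rw [abs_le]
          constructor <;> linarith
        have h14 : 0 ≤ ‖m‖ / M := by positivity
        exact mul_le_aux h13 h14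
      exact (pow_le_pow_left₀ (norm_nonneg _) h12 2).trans (two_sq _ _)
    rw [integral_add (hTi.mul_const _) (integrable_const _), integral_mul_const,
      integral_const] at h10
    simp only [probReal_univ, smul_eq_mul, one_mul] at h10
    have h11 : (‖m‖ / M) ^ 2 ≤ 2 * ρ ^ 2 * g.im ^ 2 / M := by
      rw [div_pow, div_le_div_iff₀ (by positivity) hM0]
      have h12 : ‖m‖ ^ 2 ≤ (2 * ρ * g.im) ^ 2 := pow_le_pow_left₀ (norm_nonneg _) hmn 2
      have h13 : (2 : ℝ) * M ≤ M * M := by nlinarith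
      have h14 : 0 ≤ 2 * ρ ^ 2 * g.im ^ 2 := by positivity
      calc ‖m‖ ^ 2 * M ≤ (2 * ρ * g.im) ^ 2 * M := by gcongr
        _ = 2 * ρ ^ 2 * g.im ^ 2 * (2 * M) := by ring
        _ ≤ 2 * ρ ^ 2 * g.im ^ 2 * (M * M) := by gcongr
        _ = _ := by ring
    have h12 : (2 + 4 * ρ ^ 2) * g.im ^ 2 / M =
        g.im ^ 2 / M * 2 + 2 * (2 * ρ ^ 2 * g.im ^ 2 / M) := by ring
    rw [h12]
    linarith
  -- integrability of the right side
  have hUi : Integrable (fun w : I → Ω => ((∑ i ∈ F, hu (X (w i)) g) / F.card - μ) ^ 2) Q := by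
    refine bdd_int_real Q _ hUm ((B + |μ|) ^ 2) fun w => ?_
    rw [abs_of_nonneg (sq_nonneg _), ← sq_abs]
    refine pow_le_pow_left₀ (abs_nonneg _) ?_ 2
    refine (abs_sub _ _).trans ?_
    have h3 : 0 ≤ (∑ i ∈ F, hu (X (w i)) g) / F.card :=
      div_nonneg (Finset.sum_nonneg fun i _ => hh0 _) hN.le
    rw [abs_of_nonneg h3]
    have h4 : (∑ i ∈ F, hu (X (w i)) g) / F.card ≤ B := by
      rw [div_le_iff₀ hN]
      calc ∑ i ∈ F, hu (X (w i)) g ≤ ∑ _i ∈ F, B := Finset.sum_le_sum fun i _ => hhB _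
        _ = B * F.card := by rw [Finset.sum_const, nsmul_eq_mul, mul_comm]
    linarith
  have hSi : Integrable (fun w : I → Ω => ‖(∑ i ∈ F, X (w i)) / (M : ℂ) - m‖ ^ 2) Q := by
    refine bdd_int_real Q _ hSm (((∑ _i ∈ F, K) / M + ‖m‖) ^ 2) fun w => ?_
    rw [abs_of_nonneg (sq_nonneg _)]
    refine pow_le_pow_left₀ (norm_nonneg _) ?_ 2
    refine (norm_sub_le _ _).trans ?_
    rw [norm_div, Complex.norm_natCast]
    have h3 : ‖∑ i ∈ F, X (w i)‖ ≤ ∑ _i ∈ F, K :=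
      (norm_sum_le _ _).trans (Finset.sum_le_sum fun i _ => hK _)
    have h4 : ‖∑ i ∈ F, X (w i)‖ / M ≤ (∑ _i ∈ F, K) / M := by gcongr
    linarith
  obtain ⟨L, hL⟩ : ∃ L, L = 36 * (15 + 5 * ρ ^ 2) ^ 2 := ⟨_, rfl⟩
  have hL0 : 0 ≤ L := by
    rw [hL]
    positivity
  rw [← hL]
  have hfin : ∫ w : I → Ω, hu ((∑ i ∈ F, X (w i)) / (M : ℂ)) m ^ 2 ∂Q ≤
      ∫ w : I → Ω, (((∑ i ∈ F, hu (X (w i)) g) / F.card - μ) ^ 2 * L +
        ‖(∑ i ∈ F, X (w i)) / (M : ℂ) - m‖ ^ 2 * (L / m.im ^ 2)) ∂Q := by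
    refine integral_mono_of_nonneg (Eventually.of_forall fun ω => sq_nonneg _)
      ((hUi.mul_const _).add (hSi.mul_const _)) (Eventually.of_forall fun w => ?_)
    simp only
    have h3 := point F (fun i => X (w i)) g m (μ := μ) hρ (fun i => hXp _) hg hgρ hM h1 h2 hmg hμ1
    rw [← hL] at h3
    refine h3.trans (le_of_eq ?_)
    ring
  rw [integral_add (hUi.mul_const _) (hSi.mul_const _), integral_mul_const,
    integral_mul_const] at hfin
  refine hfin.trans ?_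
  have h3 : (∫ w : I → Ω, ((∑ i ∈ F, hu (X (w i)) g) / F.card - μ) ^ 2 ∂Q) * L ≤
      1 / 50 / M * L := mul_le_mul_of_nonneg_right hV1 hL0
  have h4 : (∫ w : I → Ω, ‖(∑ i ∈ F, X (w i)) / (M : ℂ) - m‖ ^ 2 ∂Q) * (L / m.im ^ 2) ≤
      (2 + 4 * ρ ^ 2) * g.im ^ 2 / M * (L / m.im ^ 2) :=
    mul_le_mul_of_nonneg_right hV2 (by positivity)
  have h5 : (2 + 4 * ρ ^ 2) * g.im ^ 2 / M * (L / m.im ^ 2) ≤ L * (8 + 16 * ρ ^ 2) / M := by
    have h6 : g.im ^ 2 / m.im ^ 2 ≤ 4 := by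
      rw [div_le_iff₀ (by positivity)]
      have := pow_le_pow_left₀ (by positivity) hmim 2
      nlinarith
    calc (2 + 4 * ρ ^ 2) * g.im ^ 2 / M * (L / m.im ^ 2) =
          (2 + 4 * ρ ^ 2) * L / M * (g.im ^ 2 / m.im ^ 2) := by ring
      _ ≤ (2 + 4 * ρ ^ 2) * L / M * 4 := by
          refine mul_le_mul_of_nonneg_left h6 (by positivity)
      _ = _ := by ring
  have h6 : 1 / 50 / M * L + L * (8 + 16 * ρ ^ 2) / M ≤ L * (9 + 16 * ρ ^ 2) / M := by
    have h7 : L * (9 + 16 * ρ ^ 2) / M - (1 / 50 / M * L + L * (8 + 16 * ρ ^ 2) / M) =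
        49 / 50 * L / M := by ring
    have h8 : 0 ≤ 49 / 50 * L / M := by positivity
    linarith
  linarith

end Pool.Agent.H271.Z987
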